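import Pool.Agent.Helper672.Lv.Fin

/-!
Complex quadratic maps `ℂ^m → ℂ^r` without nonzero real values: for `r` congruent to `3` modulo
`4` and `r ≥ 7` such a map exists only for `m ≤ r - 2`.
-/

set_option autoImplicit false

namespace Pool.Agent.Results.MP_7fdaab_ag.UpperBound

open Pool.Agent.Helper672.Lv

/-- the imaginary part of a complex quadratic form, as a real quadratic form. -/
noncomputable def imPart {m : ℕ} (p : QuadraticForm ℂ (Fin m → ℂ)) :
    QuadraticForm ℝ (Fin m → ℂ) where
  toFun z := (p z).im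
  toFun_smul a z := by
    have h : a • z = (a : ℂ) • z := by
      funext i
      simp
    rw [h, QuadraticMap.map_smul]
    simp [Complex.mul_im]
  exists_companion' := by
    obtain ⟨B, hB⟩ := p.exists_companion
    refine ⟨LinearMap.mk₂ ℝ (fun x y => (B x y).im) ?_ ?_ ?_ ?_, ?_⟩
    · intro x x' y
      simp
    · intro c x y
      have h : c • x = (c : ℂ) • x := by
        funext i
        simp
      rw [h, map_smul]
      simp [Complex.mul_im]
    · intro x y y'
      simp
    · intro c x y
      have h : c • y = (c : ℂ) • y := by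
        funext i
        simp
      rw [h, map_smul]
      simp [Complex.mul_im]
    · intro x y
      simp [hB]

theorem imPart_apply {m : ℕ} (p : QuadraticForm ℂ (Fin m → ℂ)) (z : Fin m → ℂ) :
    imPart p z = (p z).im := rfl

/-- adding zero coordinates. -/
noncomputable def ext {k m : ℕ} (_h : k ≤ m) : (Fin k → ℂ) →ₗ[ℂ] (Fin m → ℂ) where
  toFun z i := if hi : i.val < k then z ⟨i.val, hi⟩ else 0
  map_add' := by
    intro x y
    funext i
    by_cases hi : i.val < k <;> simp [hi]
  map_smul' := by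
    intro c x
    funext i
    by_cases hi : i.val < k <;> simp [hi]

theorem ext_ne_zero {k m : ℕ} (h : k ≤ m) {z : Fin k → ℂ} (hz : z ≠ 0) : ext h z ≠ 0 := by
  intro hcon
  apply hz
  funext i
  have := congrFun hcon ⟨i.val, lt_of_lt_of_le i.2 h⟩
  simpa [ext] using this

/-- Let `r ≥ 7` be congruent to `3` modulo `4`. (1) If there are `r` complex quadratic forms in
`m` variables whose values at a nonzero point are never all real, then `m ≤ r - 2`. (2) Hence
`m(r) ≤ r - 2`. -/
theorem result (r : ℕ) (hr : r % 4 = 3) (h7 : 7 ≤ r) :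
    (∀ m : ℕ, (∃ φ : Fin r → QuadraticForm ℂ (Fin m → ℂ),
        ∀ z, z ≠ 0 → ∃ j, (φ j z).im ≠ 0) → m ≤ r - 2) ∧
    sSup {m : ℕ | ∃ φ : Fin r → QuadraticForm ℂ (Fin m → ℂ),
        ∀ z, z ≠ 0 → ∃ j, (φ j z).im ≠ 0} ≤ r - 2 := by
  have key : ∀ m : ℕ, (∃ φ : Fin r → QuadraticForm ℂ (Fin m → ℂ),
      ∀ z, z ≠ 0 → ∃ j, (φ j z).im ≠ 0) → m ≤ r - 2 := by
    intro m ⟨φ, hφ⟩
    by_contra hcon
    have hkm : r - 1 ≤ m := by omega
    have hk : (r - 1) % 4 = 2 := by omega
    refine no_forms (m := r - 1) hk (by omega)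
      (fun j => (imPart ((φ (Fin.cast (by omega) j)).comp (ext hkm)))) ?_ ?_
    · intro j z
      rw [imPart_apply, imPart_apply, QuadraticMap.map_smul]
      simp
    · intro z hz
      obtain ⟨j, hj⟩ := hφ (ext hkm z) (ext_ne_zero hkm hz)
      refine ⟨Fin.cast (by omega) j, ?_⟩
      rw [imPart_apply]
      exact hj
  refine ⟨key, ?_⟩
  refine csSup_le ⟨0, 0, fun z hz => (hz (Subsingleton.elim _ _)).elim⟩ ?_
  intro m hm
  exact key m hm

end Pool.Agent.Results.MP_7fdaab_ag.UpperBound
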